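import Mathlib

set_option autoImplicit false

/-! # Quadratic extensions of Euclidean-like fields -/

namespace Pool.Agent.Helper90.V3

/-- every element is a square or minus a square, and sums of squares are squares -/
structure Euc (k : Type) [Field k] : Prop where
  two : (2 : k) ≠ 0
  sgn : ∀ x : k, ∃ y : k, x = y ^ 2 ∨ x = -y ^ 2
  add : ∀ x y : k, ∃ z : k, x ^ 2 + y ^ 2 = z ^ 2

section

variable {k l : Type} [Field k] [Field l] {φ : k →+* l}

lemma sq_core (hk : Euc k) {i : l} (hi : i ^ 2 = -1) {u w r z : k} (hw : w ≠ 0)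
    (h1 : u ^ 2 + w ^ 2 = r ^ 2) (h2 : r + u = z ^ 2) : ∃ y : l, y ^ 2 = φ u + φ w * i := by
  obtain ⟨s, hs⟩ := hk.add 1 1
  have hs2 : s ^ 2 = 2 := by rw [← hs]; ring
  have hs0 : s ≠ 0 := by
    rintro rfl
    apply hk.two
    rw [← hs2]; ring
  have hz0 : z ≠ 0 := by
    rintro rfl
    apply hw
    have h3 : w ^ 2 = 0 := by linear_combination h1 + (r - u) * h2
    exact pow_eq_zero_iff (two_ne_zero) |>.1 h3
  obtain ⟨c, hc⟩ : ∃ c, c = z / s := ⟨_, rfl⟩
  obtain ⟨d, hd⟩ : ∃ d, d = w / (z * s) * s ^ 2 / 2 := ⟨_, rfl⟩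
  have h2' := hk.two
  have e1 : 2 * (c * d) = w := by
    rw [hc, hd]
    field_simp
  have e2 : c ^ 2 - d ^ 2 = u := by
    have e3 : 2 * c ^ 2 = z ^ 2 := by
      rw [hc]
      field_simp
      linear_combination -hs2
    have e4 : (2 * c ^ 2) * (2 * d ^ 2) = w ^ 2 := by rw [← e1]; ring
    rw [e3, ← h2] at e4
    rw [← h2] at e3
    have hz2 : r + u ≠ 0 := by rw [h2]; exact pow_ne_zero _ hz0
    have e5 : (r + u) * (2 * d ^ 2 - (r - u)) = 0 := by linear_combination e4 + h1
    have e6 : 2 * d ^ 2 = r - u := sub_eq_zero.1 ((mul_eq_zero.1 e5).resolve_left hz2)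
    have e7 : 2 * (c ^ 2 - d ^ 2 - u) = 0 := by linear_combination e3 - e6
    exact sub_eq_zero.1 ((mul_eq_zero.1 e7).resolve_left h2')
  refine ⟨φ c + φ d * i, ?_⟩
  rw [← e1, ← e2]
  simp only [map_mul, map_sub, map_pow, map_ofNat]
  linear_combination (φ d) ^ 2 * hi

/-- the elements of `k(i)` are squares -/
lemma sq_of_euc (hk : Euc k) {i : l} (hi : i ^ 2 = -1) (u w : k) :
    ∃ y : l, y ^ 2 = φ u + φ w * i := by
  by_cases hw : w = 0
  · obtain ⟨y, hy | hy⟩ := hk.sgn u
    · exact ⟨φ y, by rw [hy, hw, map_pow, map_zero]; ring⟩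
    · exact ⟨φ y * i, by rw [hy, hw, map_neg, map_pow, map_zero]; linear_combination (φ y) ^ 2 * hi⟩
  obtain ⟨r, hr⟩ := hk.add u w
  obtain ⟨z, hz | hz⟩ := hk.sgn (r + u)
  · exact sq_core hk hi hw hr hz
  · have hz0 : z ≠ 0 := by
      rintro rfl
      apply hw
      have h3 : w ^ 2 = 0 := by linear_combination hr + (r - u) * hz
      exact pow_eq_zero_iff (two_ne_zero) |>.1 h3
    refine sq_core (r := -r) (z := w / z) hk hi hw (by rw [hr]; ring) ?_
    field_simp
    linear_combination -hr - (r - u) * hz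

/-- an extension of degree at most two of a Euclidean-like field is trivial or quadratically
closed -/
theorem dich (hk : Euc k) (φ : k →+* l)
    (hdeg : ∀ x : l, ∃ a b c : k, (a ≠ 0 ∨ b ≠ 0 ∨ c ≠ 0) ∧ φ a + φ b * x + φ c * x ^ 2 = 0) :
    (∀ x : l, ∃ y : k, φ y = x) ∨ ∀ x : l, ∃ y : l, y ^ 2 = x := by
  have hinj := φ.injective
  have key : ∀ x : l, (∃ y : k, φ y = x) ∨ ∃ (j : l) (u w : k), j ^ 2 = -1 ∧ x = φ u + φ w * j := by
    intro x
    obtain ⟨a, b, c, h0, h⟩ := hdeg x
    by_cases hc : c = 0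
    · left
      subst hc
      have hb : b ≠ 0 := by
        rintro rfl
        rw [map_zero, zero_mul, zero_mul, add_zero, add_zero, map_eq_zero] at h
        simp [h] at h0
      have hb' : φ b ≠ 0 := by rwa [Ne, map_eq_zero]
      refine ⟨-a / b, ?_⟩
      rw [map_div₀, map_neg, div_eq_iff hb']
      rw [map_zero] at h
      linear_combination -h
    · have hc' : φ c ≠ 0 := by rwa [Ne, map_eq_zero]
      have h2 : (2 : l) ≠ 0 := by
        have := hk.two
        rwa [← map_ne_zero φ, map_ofNat] at this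
      obtain ⟨y, hy⟩ := hk.sgn (b ^ 2 - 4 * a * c)
      have hD : (2 * φ c * x + φ b) ^ 2 = φ (b ^ 2 - 4 * a * c) := by
        simp only [map_sub, map_mul, map_pow, map_ofNat]
        linear_combination 4 * φ c * h
      have h2k := hk.two
      rcases hy with hy | hy
      · left
        rw [hy, map_pow] at hD
        have h3 : (2 * φ c * x + φ b - φ y) * (2 * φ c * x + φ b + φ y) = 0 := by
          linear_combination hD
        rcases mul_eq_zero.1 h3 with h4 | h4
        · refine ⟨(y - b) / (2 * c), ?_⟩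
          rw [map_div₀, map_sub, map_mul, map_ofNat, div_eq_iff (mul_ne_zero h2 hc')]
          linear_combination -h4
        · refine ⟨(-y - b) / (2 * c), ?_⟩
          rw [map_div₀, map_sub, map_neg, map_mul, map_ofNat, div_eq_iff (mul_ne_zero h2 hc')]
          linear_combination -h4
      · rw [hy, map_neg, map_pow] at hD
        by_cases hy0 : y = 0
        · left
          subst hy0
          rw [map_zero] at hD
          have h4 : 2 * φ c * x + φ b = 0 := by
            have : (2 * φ c * x + φ b) ^ 2 = 0 := by rw [hD]; ring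
            exact pow_eq_zero_iff (two_ne_zero) |>.1 this
          refine ⟨(- b) / (2 * c), ?_⟩
          rw [map_div₀, map_neg, map_mul, map_ofNat, div_eq_iff (mul_ne_zero h2 hc')]
          linear_combination -h4
        · right
          have hy' : φ y ≠ 0 := by rwa [Ne, map_eq_zero]
          refine ⟨(2 * φ c * x + φ b) / φ y, -b / (2 * c), y / (2 * c), ?_, ?_⟩
          · rw [div_pow, hD]
            field_simp
          · rw [map_div₀, map_div₀, map_neg, map_mul, map_ofNat]
            field_simp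
            ring
  by_cases hi : ∃ i : l, i ^ 2 = -1
  · right
    obtain ⟨i, hi⟩ := hi
    intro x
    rcases key x with ⟨y, rfl⟩ | ⟨j, u, w, -, -⟩
    · obtain ⟨z, hz⟩ := sq_of_euc (φ := φ) hk hi y 0
      exact ⟨z, by rw [hz, map_zero]; ring⟩
    · rcases key x with ⟨y, rfl⟩ | ⟨j, u, w, hj, rfl⟩
      · obtain ⟨z, hz⟩ := sq_of_euc (φ := φ) hk hi y 0
        exact ⟨z, by rw [hz, map_zero]; ring⟩
      · exact sq_of_euc hk hj u w
  · left
    intro x
    rcases key x with h | ⟨j, -, -, hj, -⟩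
    · exact h
    · exact absurd ⟨j, hj⟩ hi

end

end Pool.Agent.Helper90.V3
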