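import Mathlib
import Pool.Agent.ETC.All
import Pool.Agent.Helper40.ET.Idx
import Pool.Agent.Helper90.V3.Euc

set_option autoImplicit false

/-! # Exceptional places and quadratic extensions -/

namespace Pool.Agent.Helper90.V3

open Pool.Agent.ETC Pool.Agent.Helper40.ET
open Pool.Agent.Helper58.EU (Ordg)

section Grp

variable {G : Type} [CommGroup G]

lemma gen_of_index {V : Subgroup G} {p : ℕ} (hp : p.Prime) (hV : V.index = p) {g : G}
    (hg : g ∉ V) (x : G) : ∃ n : ℕ, x / g ^ n ∈ V := by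
  have _ : Fact p.Prime := ⟨hp⟩
  have h1 : (QuotientGroup.mk g : G ⧸ V) ≠ 1 := by
    rwa [Ne, QuotientGroup.eq_one_iff]
  have h2 := mem_powers_of_prime_card (G := G ⧸ V) (p := p) hV h1 (g' := QuotientGroup.mk x)
  obtain ⟨n, hn⟩ := h2
  refine ⟨n, ?_⟩
  rw [← QuotientGroup.eq_one_iff, QuotientGroup.mk_div, QuotientGroup.mk_pow]
  dsimp only at hn
  rw [hn, div_self']

lemma index_of_gen {V : Subgroup G} {p : ℕ} (hp : p.Prime) {g : G} (hg : g ∉ V)
    (hgp : g ^ p ∈ V) (h : ∀ x : G, ∃ n : ℕ, x / g ^ n ∈ V) : V.index = p := by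
  have _ : Fact p.Prime := ⟨hp⟩
  have h1 : (QuotientGroup.mk g : G ⧸ V) ≠ 1 := by
    rwa [Ne, QuotientGroup.eq_one_iff]
  have h2 : (QuotientGroup.mk g : G ⧸ V) ^ p = 1 := by
    rw [← QuotientGroup.mk_pow, QuotientGroup.eq_one_iff]
    exact hgp
  have h3 : orderOf (QuotientGroup.mk g : G ⧸ V) = p := orderOf_eq_prime h2 h1
  have h4 : Subgroup.zpowers (QuotientGroup.mk g : G ⧸ V) = ⊤ := by
    rw [eq_top_iff]
    rintro q -
    obtain ⟨x, rfl⟩ := QuotientGroup.mk_surjective q
    obtain ⟨n, hn⟩ := h x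
    rw [← QuotientGroup.eq_one_iff, QuotientGroup.mk_div, QuotientGroup.mk_pow, div_eq_one] at hn
    rw [hn]
    exact pow_mem (Subgroup.mem_zpowers _) n
  have h5 : Nat.card (G ⧸ V) = orderOf (QuotientGroup.mk g : G ⧸ V) := by
    rw [← Nat.card_zpowers, h4, Subgroup.card_top]
  rw [Subgroup.index, h5, h3]

/-- powers of an element outside `V` whose square is in `V` -/
lemma even_of_mem {V : Subgroup G} {g : G} (hg : g ∉ V) (hg2 : g ^ 2 ∈ V) {n : ℕ}
    (hn : g ^ n ∈ V) : ∃ m, n = 2 * m := by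
  rcases Nat.even_or_odd' n with ⟨m, h | h⟩
  · exact ⟨m, h⟩
  · exfalso
    apply hg
    rw [h, pow_succ, pow_mul] at hn
    exact (Subgroup.mul_mem_cancel_left V (pow_mem hg2 m)).1 hn

end Grp

section

variable {E : Type} [Field E] {R : ValuationSubring E} {ζ : E}

lemma pow_mem_VP (R : ValuationSubring E) (x : Eˣ) : x ^ 2 ∈ VP 2 R := by
  rw [mem_VP]
  exact ⟨x, by rw [Units.val_pow_eq_pow_val, map_pow]⟩

lemma unit_mem_VP {x : Eˣ} (hx : R.valuation (x : E) = 1) : x ∈ VP 2 R := by
  rw [mem_VP]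
  exact ⟨1, by rw [hx, Units.val_one, map_one, one_pow]⟩

lemma zeta_eq (hζ : IsPrimitiveRoot ζ 2) : ζ ^ 2 = 1 ∧ ζ ≠ 1 :=
  ⟨hζ.pow_eq_one, hζ.ne_one one_lt_two⟩

/-- `T(R)` for residue characteristic not two -/
lemma mem_TR2 (hζ : IsPrimitiveRoot ζ 2) (hR : R.valuation (2 : E) = 1) {t : Eˣ} :
    t ∈ TR 2 ζ R ↔ ∃ (f : Eˣ) (x : E), R.valuation x < 1 ∧ (t : E) = (f : E) ^ 2 * (1 + x) := by
  rw [mem_TR two_ne_zero (zeta_eq hζ).1 (zeta_eq hζ).2]
  have hR' : R.valuation ((2 : ℕ) : E) = 1 := by exact_mod_cast hR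
  constructor
  · rintro ⟨f, x, hx, ht⟩
    exact ⟨f, x, (sm_of_pv Nat.prime_two hζ hR').1 hx, ht⟩
  · rintro ⟨f, x, hx, ht⟩
    exact ⟨f, x, (sm_of_pv Nat.prime_two hζ hR').2 hx, ht⟩

lemma val_of_near {x y : E} (h : R.valuation (x - y) < 1) (hx : R.valuation x = 1) :
    R.valuation y = 1 := by
  have e : y = x - (x - y) := by ring
  rw [e, Valuation.map_sub_eq_of_lt_left, hx]
  rwa [hx]

lemma TR_le_VP (hζ : IsPrimitiveRoot ζ 2) (hR : R.valuation (2 : E) = 1) :
    TR 2 ζ R ≤ VP 2 R := by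
  intro t ht
  obtain ⟨f, x, hx, h⟩ := (mem_TR2 hζ hR).1 ht
  rw [mem_VP]
  refine ⟨f, ?_⟩
  rw [h, map_mul, R.valuation.map_one_add_of_lt hx, mul_one, map_pow]

/-- a unit near a square is in `T(R)` -/
lemma mem_TR_of_near (hζ : IsPrimitiveRoot ζ 2) (hR : R.valuation (2 : E) = 1) {u : Eˣ}
    (hu : R.valuation (u : E) = 1) {y : E} (h : R.valuation ((u : E) - y ^ 2) < 1) :
    u ∈ TR 2 ζ R := by
  have hy := val_of_near h hu
  have hy0 : y ≠ 0 := by
    rintro rfl
    rw [zero_pow two_ne_zero, map_zero] at hy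
    exact zero_ne_one hy
  rw [mem_TR2 hζ hR]
  refine ⟨Units.mk0 y hy0, ((u : E) - y ^ 2) / y ^ 2, ?_, ?_⟩
  · rw [map_div₀, hy, div_one]
    exact h
  · rw [Units.val_mk0]
    field_simp
    ring

/-- if every unit is a square up to one-units, then `E*/T(R)` is cyclic or there is no place -/
lemma not_V1_of_sq (hζ : IsPrimitiveRoot ζ 2) (hR : V1 2 ζ R)
    (hsq : ∀ u : E, R.valuation u = 1 → ∃ y : E, R.valuation (u - y ^ 2) < 1)
    (hi : (VP 2 R).index = 2) : False := by
  have h2 : R.valuation (2 : E) = 1 := by exact_mod_cast hR.pv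
  obtain ⟨c, hc⟩ : ∃ c : Eˣ, c ∉ VP 2 R := by
    by_contra hcon
    push Not at hcon
    rw [(Subgroup.index_eq_one).2 ((Subgroup.eq_top_iff' _).2 hcon)] at hi
    omega
  obtain ⟨x, hx⟩ := hR.nc c
  obtain ⟨n, hn⟩ := gen_of_index Nat.prime_two hi hc x
  apply hx n
  obtain ⟨y, hy⟩ := mem_VP.1 hn
  obtain ⟨u, hu⟩ : ∃ u : Eˣ, u = x / c ^ n / y ^ 2 := ⟨_, rfl⟩
  have hyv : R.valuation (y : E) ≠ 0 := (Valuation.ne_zero_iff _).2 y.ne_zero
  have huv : R.valuation (u : E) = 1 := by
    rw [hu, Units.val_div_eq_div_val, map_div₀, hy, Units.val_pow_eq_pow_val, map_pow, div_self]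
    exact pow_ne_zero _ hyv
  obtain ⟨z, hz⟩ := hsq _ huv
  have h3 := mem_TR_of_near hζ h2 huv hz
  have h4 : x / c ^ n = u * y ^ 2 := by rw [hu, div_mul_cancel]
  rw [h4]
  exact mul_mem h3 (pow_mem_TR 2 ζ R y)

/-- the conditions on squares of a Euclidean residue field -/
structure EV (R : ValuationSubring E) : Prop where
  sgn : ∀ u : E, R.valuation u = 1 → ∃ y : E, R.valuation (u - y ^ 2) < 1 ∨
    R.valuation (u + y ^ 2) < 1
  neg : ∀ y : E, ¬ R.valuation (1 + y ^ 2) < 1
  add : ∀ y : E, R.valuation y = 1 → ∃ z : E, R.valuation (1 + y ^ 2 - z ^ 2) < 1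

lemma val_le_of_sq_le {y : E} (h : R.valuation (y ^ 2) ≤ 1) : R.valuation y ≤ 1 := by
  by_contra hc
  rw [not_le] at hc
  rw [map_pow] at h
  exact absurd h (not_le.2 (one_lt_pow₀ hc two_ne_zero))

lemma val_one_of_sq {y : E} (h : R.valuation (y ^ 2) = 1) : R.valuation y = 1 := by
  rw [map_pow] at h
  exact (pow_eq_one_iff_of_nonneg zero_le two_ne_zero).1 h

open IsLocalRing in
lemma res_zero {x : R} : residue R x = 0 ↔ R.valuation (x : E) < 1 := by
  rw [IsLocalRing.residue_eq_zero_iff, ValuationSubring.valuation_lt_one_iff]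

open IsLocalRing in
/-- the residue field is Euclidean -/
lemma EV.euc (h2 : R.valuation (2 : E) = 1) (h : EV R) : Euc (ResidueField R) := by
  refine ⟨?_, ?_, ?_⟩
  · have h3 : (2 : ResidueField R) = residue R 2 := (map_ofNat _ 2).symm
    rw [h3, Ne, res_zero]
    have h4 : ((2 : R) : E) = 2 := rfl
    rw [h4, h2]
    exact lt_irrefl _
  · intro x
    obtain ⟨u, rfl⟩ := residue_surjective x
    by_cases hu : R.valuation (u : E) < 1
    · refine ⟨0, Or.inl ?_⟩
      rw [res_zero.2 hu]; ring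
    · have hu1 : R.valuation (u : E) = 1 :=
        le_antisymm (R.valuation_le_one u) (not_lt.1 hu)
      obtain ⟨y, hy⟩ := h.sgn _ hu1
      have hy1 : R.valuation (y ^ 2) = 1 := by
        rcases hy with hy | hy
        · exact val_of_near hy hu1
        · have e : (u : E) + y ^ 2 = u - (-y ^ 2) := by ring
          rw [e] at hy
          have := val_of_near hy hu1
          rwa [Valuation.map_neg] at this
      have hyR : y ∈ R := (R.valuation_le_one_iff y).1 (val_one_of_sq hy1).le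
      refine ⟨residue R ⟨y, hyR⟩, ?_⟩
      rcases hy with hy | hy
      · left
        rw [← map_pow, ← sub_eq_zero, ← map_sub, res_zero]
        exact hy
      · right
        rw [← map_pow, ← map_neg, ← sub_eq_zero, ← map_sub, res_zero]
        have e : ((u - (-(⟨y, hyR⟩ : R) ^ 2) : R) : E) = u + y ^ 2 := by
          push_cast
          ring
        rw [e]
        exact hy
  · intro x y
    obtain ⟨s, rfl⟩ := residue_surjective x
    obtain ⟨t, rfl⟩ := residue_surjective y
    by_cases hs : R.valuation (s : E) < 1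
    · refine ⟨residue R t, ?_⟩
      rw [res_zero.2 hs]; ring
    have hs1 : R.valuation (s : E) = 1 :=
      le_antisymm (R.valuation_le_one s) (not_lt.1 hs)
    by_cases ht : R.valuation (t : E) < 1
    · refine ⟨residue R s, ?_⟩
      rw [res_zero.2 ht]; ring
    have ht1 : R.valuation (t : E) = 1 :=
      le_antisymm (R.valuation_le_one t) (not_lt.1 ht)
    have hs0 : (s : E) ≠ 0 := by
      intro e
      rw [e, map_zero] at hs1
      exact zero_ne_one hs1
    obtain ⟨z, hz⟩ := h.add ((t : E) / s) (by rw [map_div₀, ht1, hs1, div_one])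
    have hz1 : R.valuation (z ^ 2) ≤ 1 := by
      have e : z ^ 2 = 1 + ((t : E) / s) ^ 2 - (1 + ((t : E) / s) ^ 2 - z ^ 2) := by ring
      rw [e]
      refine Valuation.map_sub_le _ (Valuation.map_add_le _ (map_one _).le ?_) hz.le
      rw [map_pow, map_div₀, ht1, hs1, div_one, one_pow]
    have hzR : z ∈ R := (R.valuation_le_one_iff z).1 (val_le_of_sq_le hz1)
    refine ⟨residue R (s * ⟨z, hzR⟩), ?_⟩
    rw [← map_pow, ← map_pow, ← map_pow, ← map_add, ← sub_eq_zero, ← map_sub, res_zero]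
    have e : ((s ^ 2 + t ^ 2 - (s * ⟨z, hzR⟩) ^ 2 : R) : E) =
        (s : E) ^ 2 * (1 + ((t : E) / s) ^ 2 - z ^ 2) := by
      push_cast
      field_simp
    rw [e, map_mul, map_pow, hs1, one_pow, one_mul]
    exact hz

end

section

variable {F E : Type} [Field F] [Field E] [Algebra F E]

lemma over_lt {O : ValuationSubring F} {R : ValuationSubring E}
    (hR : R.comap (algebraMap F E) = O) (x : F) :
    R.valuation (algebraMap F E x) < 1 ↔ O.valuation x < 1 := by
  by_cases hx : x = 0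
  · subst hx
    simp
  have h1 : ∀ (L : Type) [Field L] (S : ValuationSubring L) (y : L), y ≠ 0 →
      (S.valuation y < 1 ↔ y⁻¹ ∉ S) := by
    intro L _ S y hy
    rw [← S.valuation_le_one_iff, map_inv₀, not_le,
      one_lt_inv₀ (zero_lt_iff.2 ((Valuation.ne_zero_iff _).2 hy))]
  rw [h1 _ _ _ hx, h1 _ _ _ (by rwa [Ne, map_eq_zero]), ← hR, ValuationSubring.mem_comap,
    map_inv₀]

lemma over_le {O : ValuationSubring F} {R : ValuationSubring E}
    (hR : R.comap (algebraMap F E) = O) (x : F) :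
    R.valuation (algebraMap F E x) ≤ 1 ↔ O.valuation x ≤ 1 := by
  rw [R.valuation_le_one_iff, O.valuation_le_one_iff, ← hR, ValuationSubring.mem_comap]

lemma over_one {O : ValuationSubring F} {R : ValuationSubring E}
    (hR : R.comap (algebraMap F E) = O) (x : F) :
    R.valuation (algebraMap F E x) = 1 ↔ O.valuation x = 1 := by
  rw [le_antisymm_iff, le_antisymm_iff, over_le hR]
  refine and_congr_right fun _ => ?_
  rw [← not_lt, ← not_lt, over_lt hR]

/-- an element of an extension of degree two satisfies a quadratic equation with coefficients in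
the valuation ring, one of them a unit -/
lemma exists_quad [FiniteDimensional F E] (hE : Module.finrank F E = 2)
    (O : ValuationSubring F) (x : E) :
    ∃ a b c : F, O.valuation a ≤ 1 ∧ O.valuation b ≤ 1 ∧ O.valuation c ≤ 1 ∧
      (O.valuation a = 1 ∨ O.valuation b = 1 ∨ O.valuation c = 1) ∧
      algebraMap F E a + algebraMap F E b * x + algebraMap F E c * x ^ 2 = 0 := by
  -- a relation over `F`
  have h1 : ∃ a : Fin 3 → F, (∃ i, a i ≠ 0) ∧ ∑ i, a i • x ^ (i : ℕ) = 0 := by
    by_contra hcon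
    have h2 : LinearIndependent F (fun i : Fin 3 => x ^ (i : ℕ)) := by
      rw [Fintype.linearIndependent_iff]
      intro g hg i
      by_contra hi
      exact hcon ⟨g, ⟨i, hi⟩, hg⟩
    have h3 := h2.fintype_card_le_finrank
    rw [hE, Fintype.card_fin] at h3
    omega
  obtain ⟨a, ⟨i₀, hi₀⟩, ha⟩ := h1
  obtain ⟨m, -, hm⟩ := Finset.exists_max_image (Finset.univ : Finset (Fin 3))
    (fun i => O.valuation (a i)) ⟨i₀, Finset.mem_univ _⟩
  have hm0 : a m ≠ 0 := by
    intro h
    have h2 := hm i₀ (Finset.mem_univ _)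
    rw [h, map_zero, le_zero_iff, map_eq_zero] at h2
    exact hi₀ h2
  have hmv : 0 < O.valuation (a m) := zero_lt_iff.2 ((Valuation.ne_zero_iff _).2 hm0)
  have hle : ∀ i, O.valuation (a i / a m) ≤ 1 := fun i => by
    rw [map_div₀, div_le_one₀ hmv]
    exact hm i (Finset.mem_univ _)
  have hone : O.valuation (a m / a m) = 1 := by rw [div_self hm0, map_one]
  refine ⟨a 0 / a m, a 1 / a m, a 2 / a m, hle _, hle _, hle _, ?_, ?_⟩
  · fin_cases m
    · exact Or.inl hone
    · exact Or.inr (Or.inl hone)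
    · exact Or.inr (Or.inr hone)
  · rw [Fin.sum_univ_three] at ha
    simp only [Fin.val_zero, Fin.val_one, Fin.val_two, pow_zero, pow_one, Algebra.smul_def,
      mul_one] at ha
    have hm1 : algebraMap F E (a m) ≠ 0 := by rwa [Ne, map_eq_zero]
    rw [map_div₀, map_div₀, map_div₀]
    field_simp
    linear_combination ha

open IsLocalRing in
/-- dichotomy for the residue field of a quadratic extension -/
lemma dich_val [FiniteDimensional F E] (hE : Module.finrank F E = 2)
    {O : ValuationSubring F} {R : ValuationSubring E} (hR : R.comap (algebraMap F E) = O)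
    (h2 : O.valuation (2 : F) = 1) (h : EV O) :
    (∀ x : E, R.valuation x ≤ 1 → ∃ f : F, O.valuation f ≤ 1 ∧
      R.valuation (x - algebraMap F E f) < 1) ∨
    (∀ x : E, R.valuation x = 1 → ∃ y : E, R.valuation (x - y ^ 2) < 1) := by
  let f : O →+* R := ((algebraMap F E).comp O.subtype).codRestrict R.toSubring
    (fun x => by
      have h3 := (over_le hR (x : F)).2 (O.valuation_le_one x)
      exact (R.valuation_le_one_iff _).1 h3)
  have hf : ∀ x : O, ((f x : R) : E) = algebraMap F E (x : F) := fun x => rfl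
  have hloc : IsLocalHom f := by
    constructor
    intro x hx
    rw [ValuationSubring.valuation_eq_one_iff] at hx ⊢
    rw [hf] at hx
    exact (over_one hR _).1 hx
  have hdeg : ∀ x : ResidueField R, ∃ a b c : ResidueField O, (a ≠ 0 ∨ b ≠ 0 ∨ c ≠ 0) ∧
      ResidueField.map f a + ResidueField.map f b * x + ResidueField.map f c * x ^ 2 = 0 := by
    intro x
    obtain ⟨x, rfl⟩ := residue_surjective x
    obtain ⟨a, b, c, ha, hb, hc, h0, h3⟩ := exists_quad hE O (x : E)
    rw [O.valuation_le_one_iff] at ha hb hc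
    refine ⟨residue O ⟨a, ha⟩, residue O ⟨b, hb⟩, residue O ⟨c, hc⟩, ?_, ?_⟩
    · rw [Ne, Ne, Ne, res_zero, res_zero, res_zero]
      rcases h0 with h0 | h0 | h0
      · left; exact h0.not_lt
      · right; left; exact h0.not_lt
      · right; right; exact h0.not_lt
    · rw [ResidueField.map_residue, ResidueField.map_residue, ResidueField.map_residue,
        ← map_pow, ← map_mul, ← map_mul, ← map_add, ← map_add, res_zero]
      have e : ((f ⟨a, ha⟩ + f ⟨b, hb⟩ * x + f ⟨c, hc⟩ * x ^ 2 : R) : E) =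
          algebraMap F E a + algebraMap F E b * x + algebraMap F E c * (x : E) ^ 2 := rfl
      rw [e, h3, map_zero]
      exact zero_lt_one
  rcases dich (h.euc h2) (ResidueField.map f) hdeg with h3 | h3
  · left
    intro x hx
    obtain ⟨y, hy⟩ := h3 (residue R ⟨x, (R.valuation_le_one_iff x).1 hx⟩)
    obtain ⟨y, rfl⟩ := residue_surjective y
    refine ⟨(y : F), O.valuation_le_one y, ?_⟩
    rw [ResidueField.map_residue, eq_comm, ← sub_eq_zero, ← map_sub, res_zero] at hy
    exact hy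
  · right
    intro x hx
    obtain ⟨y, hy⟩ := h3 (residue R ⟨x, (R.valuation_le_one_iff x).1 hx.le⟩)
    obtain ⟨y, rfl⟩ := residue_surjective y
    refine ⟨(y : E), ?_⟩
    rw [← map_pow, eq_comm, ← sub_eq_zero, ← map_sub, res_zero] at hy
    exact hy

lemma EV.up {O : ValuationSubring F} {R : ValuationSubring E}
    (hR : R.comap (algebraMap F E) = O) (h : EV O)
    (hs : ∀ x : E, R.valuation x ≤ 1 → ∃ f : F, O.valuation f ≤ 1 ∧
      R.valuation (x - algebraMap F E f) < 1) : EV R := by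
  refine ⟨?_, ?_, ?_⟩
  · intro u hu
    obtain ⟨f, hf, hf1⟩ := hs u hu.le
    have hfu := (over_one hR f).1 (val_of_near hf1 hu)
    obtain ⟨y, hy | hy⟩ := h.sgn f hfu
    · refine ⟨algebraMap F E y, Or.inl ?_⟩
      rw [← over_lt hR] at hy
      have e : u - (algebraMap F E y) ^ 2 = (u - algebraMap F E f) +
        algebraMap F E (f - y ^ 2) := by rw [map_sub, map_pow]; ring
      rw [e]
      exact Valuation.map_add_lt _ hf1 hy
    · refine ⟨algebraMap F E y, Or.inr ?_⟩
      rw [← over_lt hR] at hy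
      have e : u + (algebraMap F E y) ^ 2 = (u - algebraMap F E f) +
        algebraMap F E (f + y ^ 2) := by rw [map_add, map_pow]; ring
      rw [e]
      exact Valuation.map_add_lt _ hf1 hy
  · intro y hy
    have hy1 : R.valuation (y ^ 2) ≤ 1 := by
      have e : y ^ 2 = (1 + y ^ 2) - 1 := by ring
      rw [e]
      exact Valuation.map_sub_le _ hy.le (map_one _).le
    have hy2 := val_le_of_sq_le hy1
    obtain ⟨f, hf, hf1⟩ := hs y hy2
    apply h.neg f
    rw [← over_lt hR]
    have e : algebraMap F E (1 + f ^ 2) = (1 + y ^ 2) -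
        (y - algebraMap F E f) * (y + algebraMap F E f) := by
      rw [map_add, map_pow, map_one]; ring
    rw [e]
    refine Valuation.map_sub_lt _ hy ?_
    rw [map_mul]
    refine mul_lt_one_of_lt_of_le hf1 ?_
    exact Valuation.map_add_le _ hy2 ((over_le hR f).2 hf)
  · intro y hy
    obtain ⟨f, hf, hf1⟩ := hs y hy.le
    have hfu := (over_one hR f).1 (val_of_near hf1 hy)
    obtain ⟨z, hz⟩ := h.add f hfu
    refine ⟨algebraMap F E z, ?_⟩
    rw [← over_lt hR] at hz
    have e : 1 + y ^ 2 - (algebraMap F E z) ^ 2 = algebraMap F E (1 + f ^ 2 - z ^ 2) +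
        (y - algebraMap F E f) * (y + algebraMap F E f) := by
      rw [map_sub, map_add, map_pow, map_pow, map_one]; ring
    rw [e]
    refine Valuation.map_add_lt _ hz ?_
    rw [map_mul]
    refine mul_lt_one_of_lt_of_le hf1 ?_
    exact Valuation.map_add_le _ hy.le ((over_le hR f).2 hf)

/-- exceptional places: Euclidean residue field and value group of index two -/
lemma setup {ζ : F} (hζ : IsPrimitiveRoot ζ 2) {O : ValuationSubring F} (hO : V1 2 ζ O)
    {P : Subgroup Fˣ} (hP : Ordg P) (hle : TR 2 ζ O ≤ P) {g : Fˣ}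
    (hg : ∀ x ∈ P, ∃ n : ℕ, x / g ^ n ∈ TR 2 ζ O) : EV O ∧ (VP 2 O).index = 2 := by
  have h2 : O.valuation (2 : F) = 1 := by exact_mod_cast hO.pv
  have hTV := TR_le_VP hζ h2
  -- `g` has odd value
  have hgV : g ∉ VP 2 O := by
    intro h
    obtain ⟨c, hc⟩ := hO.nu
    have hcV : c ∉ VP 2 O := by
      intro h3
      obtain ⟨y, hy⟩ := mem_VP.1 h3
      apply hc y⁻¹
      rw [Units.val_mul, map_mul, hy, Units.val_pow_eq_pow_val, map_pow, ← mul_pow, ← map_mul,
        Units.mul_inv, map_one, one_pow]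
    have h3 : ∀ c : Fˣ, c ∈ P → c ∈ VP 2 O := by
      intro c hcP
      obtain ⟨n, hn⟩ := hg c hcP
      have h4 := mul_mem (hTV hn) (pow_mem h n)
      rwa [div_mul_cancel] at h4
    rcases hP.tot c with h4 | h4
    · exact hcV (h3 c h4)
    · apply hcV
      have h5 := h3 _ h4
      rw [mem_VP] at h5 ⊢
      obtain ⟨y, hy⟩ := h5
      exact ⟨y, by rwa [Units.val_neg, Valuation.map_neg] at hy⟩
  have hg2 := pow_mem_VP O g
  -- positive units are squares
  have hsq : ∀ u : Fˣ, O.valuation (u : F) = 1 → u ∈ P →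
      ∃ y : F, O.valuation ((u : F) - y ^ 2) < 1 := by
    intro u hu huP
    obtain ⟨n, hn⟩ := hg u huP
    have h3 : g ^ n ∈ VP 2 O := by
      have h4 := div_mem (unit_mem_VP hu) (hTV hn)
      rwa [div_div_cancel] at h4
    obtain ⟨m, rfl⟩ := even_of_mem hgV hg2 h3
    have h4 : u ∈ TR 2 ζ O := by
      have h5 : g ^ (2 * m) ∈ TR 2 ζ O := by
        rw [mul_comm, pow_mul]
        exact pow_mem_TR 2 ζ O _
      have h6 := mul_mem hn h5
      rwa [div_mul_cancel] at h6
    obtain ⟨f, x, hx, h5⟩ := (mem_TR2 hζ h2).1 h4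
    have hfv : O.valuation ((f : F) ^ 2) = 1 := by
      rw [h5, map_mul, O.valuation.map_one_add_of_lt hx, mul_one] at hu
      exact hu
    refine ⟨f, ?_⟩
    have e : (u : F) - (f : F) ^ 2 = (f : F) ^ 2 * x := by rw [h5]; ring
    rw [e, map_mul, hfv, one_mul]
    exact hx
  have hone : ∀ u : Fˣ, O.valuation ((u : F) - 1) < 1 → u ∈ P := by
    intro u hu
    apply hle
    refine mem_TR_of_near hζ h2 (y := 1) ?_ (by rwa [one_pow])
    have e : (u : F) = 1 + (u - 1) := by ring
    rw [e, O.valuation.map_one_add_of_lt hu]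
  have hsqP : ∀ u : Fˣ, u ^ 2 ∈ P := fun u => hle (pow_mem_TR 2 ζ O u)
  have hneg : ∀ y : F, ¬ O.valuation (1 + y ^ 2) < 1 := by
    intro y hy
    have hy0 : y ≠ 0 := by
      rintro rfl
      rw [zero_pow two_ne_zero, add_zero, map_one] at hy
      exact lt_irrefl _ hy
    have h3 := hone (-(Units.mk0 y hy0) ^ 2) (by
      have e : ((-(Units.mk0 y hy0) ^ 2 : Fˣ) : F) - 1 = -(1 + y ^ 2) := by
        rw [Units.val_neg, Units.val_pow_eq_pow_val, Units.val_mk0]; ring
      rw [e, Valuation.map_neg]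
      exact hy)
    apply hP.neg
    have h4 := div_mem h3 (hsqP (Units.mk0 y hy0))
    rwa [neg_div, div_self'] at h4
  refine ⟨⟨?_, hneg, ?_⟩, ?_⟩
  · intro u hu
    have hu0 : u ≠ 0 := by
      rintro rfl
      rw [map_zero] at hu
      exact zero_ne_one hu
    rcases hP.tot (Units.mk0 u hu0) with h3 | h3
    · obtain ⟨y, hy⟩ := hsq _ (by rwa [Units.val_mk0]) h3
      exact ⟨y, Or.inl (by rwa [Units.val_mk0] at hy)⟩
    · obtain ⟨y, hy⟩ := hsq _ (by rwa [Units.val_neg, Valuation.map_neg, Units.val_mk0]) h3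
      refine ⟨y, Or.inr ?_⟩
      rw [Units.val_neg, Units.val_mk0] at hy
      have e : u + y ^ 2 = -(-u - y ^ 2) := by ring
      rw [e, Valuation.map_neg]
      exact hy
  · intro y hy
    have hy0 : y ≠ 0 := by
      rintro rfl
      rw [map_zero] at hy
      exact zero_ne_one hy
    obtain ⟨z, hz, hzP⟩ := hP.add _ (hsqP (Units.mk0 y hy0))
    rw [Units.val_pow_eq_pow_val, Units.val_mk0] at hz
    have hzv : O.valuation (z : F) = 1 := by
      rw [hz]
      refine le_antisymm (Valuation.map_add_le _ (map_one _).le ?_) (not_lt.1 (hneg y))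
      rw [map_pow, hy, one_pow]
    obtain ⟨w, hw⟩ := hsq z hzv hzP
    exact ⟨w, by rwa [hz] at hw⟩
  · refine index_of_gen Nat.prime_two hgV hg2 fun x => ?_
    rcases hP.tot x with h3 | h3
    · obtain ⟨n, hn⟩ := hg _ h3
      exact ⟨n, hTV hn⟩
    · obtain ⟨n, hn⟩ := hg _ h3
      refine ⟨n, ?_⟩
      have h4 := hTV hn
      rw [mem_VP] at h4 ⊢
      obtain ⟨y, hy⟩ := h4
      refine ⟨y, ?_⟩
      rwa [neg_div, Units.val_neg, Valuation.map_neg] at hy

end

section

variable {E : Type} [Field E] {R : ValuationSubring E} {ζ : E}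

/-- the case of a Euclidean residue field: the place is exceptional -/
lemma not_nx (hζ : IsPrimitiveRoot ζ 2) (hR : V1 2 ζ R) (h : EV R) {g : Eˣ}
    (hg : g ∉ VP 2 R) (hgen : ∀ x : Eˣ, ∃ n : ℕ, x / g ^ n ∈ VP 2 R) : ¬ NX 2 ζ R := by
  have h2 : R.valuation (2 : E) = 1 := by exact_mod_cast hR.pv
  have hTV := TR_le_VP hζ h2
  have hg2 := pow_mem_VP R g
  have hg2T : g ^ 2 ∈ TR 2 ζ R := pow_mem_TR 2 ζ R g
  -- units in `T(R)`
  have hone : ∀ u : Eˣ, R.valuation ((u : E) - 1) < 1 → u ∈ TR 2 ζ R := by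
    intro u hu
    refine mem_TR_of_near hζ h2 (y := 1) ?_ (by rwa [one_pow])
    have e : (u : E) = 1 + (u - 1) := by ring
    rw [e, R.valuation.map_one_add_of_lt hu]
  obtain ⟨Q, hQ⟩ : ∃ Q : Subgroup Eˣ, ∀ x : Eˣ, x ∈ Q ↔ ∃ n : ℕ, x / g ^ n ∈ TR 2 ζ R := by
    refine ⟨⟨⟨⟨{x | ∃ n : ℕ, x / g ^ n ∈ TR 2 ζ R}, ?_⟩, ?_⟩, ?_⟩, fun x => Iff.rfl⟩
    · rintro x y ⟨n, hn⟩ ⟨m, hm⟩
      refine ⟨n + m, ?_⟩
      rw [pow_add, mul_div_mul_comm]
      exact mul_mem hn hm
    · exact ⟨0, by rw [pow_zero, div_one]; exact one_mem _⟩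
    · rintro x ⟨n, hn⟩
      refine ⟨n, ?_⟩
      have h3 := mul_mem (inv_mem hn) (inv_mem (pow_mem hg2T n))
      have e : x⁻¹ / g ^ n = (x / g ^ n)⁻¹ * ((g ^ 2) ^ n)⁻¹ := by
        rw [← pow_mul, mul_comm 2 n, pow_mul, pow_two, inv_div, div_eq_mul_inv, div_eq_mul_inv,
          mul_inv, mul_comm (g ^ n) x⁻¹, mul_assoc, mul_inv_cancel_left]
      rw [e]
      exact h3
  have hTQ : TR 2 ζ R ≤ Q := fun x hx => (hQ x).2 ⟨0, by rwa [pow_zero, div_one]⟩
  have hu : ∀ u : Eˣ, R.valuation (u : E) = 1 → u ∈ Q → u ∈ TR 2 ζ R := by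
    intro u hu huQ
    obtain ⟨n, hn⟩ := (hQ u).1 huQ
    have h3 : g ^ n ∈ VP 2 R := by
      have h4 := div_mem (unit_mem_VP hu) (hTV hn)
      rwa [div_div_cancel] at h4
    obtain ⟨m, rfl⟩ := even_of_mem hg hg2 h3
    have h5 : g ^ (2 * m) ∈ TR 2 ζ R := by
      rw [pow_mul]
      exact pow_mem hg2T m
    have h6 := mul_mem hn h5
    rwa [div_mul_cancel] at h6
  have hord : Ordg Q := by
    refine ⟨?_, ?_, ?_⟩
    · intro hm
      have h3 := hu (-1) (by rw [Units.val_neg, Valuation.map_neg, Units.val_one, map_one]) hm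
      obtain ⟨f, x, hx, h4⟩ := (mem_TR2 hζ h2).1 h3
      apply h.neg f
      have h5 : R.valuation ((f : E) ^ 2) = 1 := by
        have h6 := congrArg R.valuation h4
        rw [Units.val_neg, Valuation.map_neg, Units.val_one, map_one, map_mul,
          R.valuation.map_one_add_of_lt hx, mul_one] at h6
        exact h6.symm
      have e : 1 + (f : E) ^ 2 = -((f : E) ^ 2 * x) := by
        rw [Units.val_neg, Units.val_one] at h4
        linear_combination -h4
      rw [e, Valuation.map_neg, map_mul, h5, one_mul]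
      exact hx
    · intro x
      obtain ⟨n, hn⟩ := hgen x
      obtain ⟨y, hy⟩ := mem_VP.1 hn
      obtain ⟨u, hu'⟩ : ∃ u : Eˣ, u = x / g ^ n / y ^ 2 := ⟨_, rfl⟩
      have hyv : R.valuation (y : E) ≠ 0 := (Valuation.ne_zero_iff _).2 y.ne_zero
      have huv : R.valuation (u : E) = 1 := by
        rw [hu', Units.val_div_eq_div_val, map_div₀, hy, Units.val_pow_eq_pow_val, map_pow,
          div_self]
        exact pow_ne_zero _ hyv
      have h4 : x / g ^ n = u * y ^ 2 := by rw [hu', div_mul_cancel]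
      obtain ⟨z, hz | hz⟩ := h.sgn _ huv
      · left
        refine (hQ x).2 ⟨n, ?_⟩
        rw [h4]
        exact mul_mem (mem_TR_of_near hζ h2 huv hz) (pow_mem_TR 2 ζ R y)
      · right
        refine (hQ (-x)).2 ⟨n, ?_⟩
        rw [neg_div, h4, ← neg_mul]
        refine mul_mem (mem_TR_of_near hζ h2 (by rwa [Units.val_neg, Valuation.map_neg])
          (y := z) ?_) (pow_mem_TR 2 ζ R y)
        have e : ((-u : Eˣ) : E) - z ^ 2 = -(u + z ^ 2) := by rw [Units.val_neg]; ring
        rw [e, Valuation.map_neg]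
        exact hz
    · intro u huQ
      rcases lt_trichotomy (R.valuation (u : E)) 1 with hlt | heq | hgt
      · have h3 : (1 : E) + u ≠ 0 := by
          intro e
          have := R.valuation.map_one_add_of_lt hlt
          rw [e, map_zero] at this
          exact zero_ne_one this
        refine ⟨Units.mk0 _ h3, rfl, hTQ (hone _ ?_)⟩
        rw [Units.val_mk0, add_sub_cancel_left]
        exact hlt
      · obtain ⟨f, x, hx, h4⟩ := (mem_TR2 hζ h2).1 (hu u heq huQ)
        have hfv : R.valuation ((f : E) ^ 2) = 1 := by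
          rw [h4, map_mul, R.valuation.map_one_add_of_lt hx, mul_one] at heq
          exact heq
        obtain ⟨z, hz⟩ := h.add f (val_one_of_sq hfv)
        have hw : R.valuation ((1 : E) + u) = 1 := by
          have e : (1 : E) + u = (1 + (f : E) ^ 2) + (f : E) ^ 2 * x := by rw [h4]; ring
          have h5 : R.valuation ((f : E) ^ 2 * x) < 1 := by
            rw [map_mul, hfv, one_mul]; exact hx
          have h6 : R.valuation (1 + (f : E) ^ 2) = 1 :=
            le_antisymm (Valuation.map_add_le _ (map_one _).le hfv.le) (not_lt.1 (h.neg _))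
          rw [e, Valuation.map_add_eq_of_lt_left, h6]
          rw [h6]
          exact h5
        have h3 : (1 : E) + u ≠ 0 := by
          intro e
          rw [e, map_zero] at hw
          exact zero_ne_one hw
        refine ⟨Units.mk0 _ h3, rfl, hTQ (mem_TR_of_near hζ h2 hw (y := z) ?_)⟩
        rw [Units.val_mk0]
        have e : (1 : E) + u - z ^ 2 = (1 + (f : E) ^ 2 - z ^ 2) + (f : E) ^ 2 * x := by
          rw [h4]; ring
        rw [e]
        refine Valuation.map_add_lt _ hz ?_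
        rw [map_mul, hfv, one_mul]
        exact hx
      · have hlt : R.valuation ((u : E)⁻¹) < 1 := by
          rw [map_inv₀]
          exact inv_lt_one_of_one_lt₀ hgt
        have h3 : (1 : E) + (u : E)⁻¹ ≠ 0 := by
          intro e
          have := R.valuation.map_one_add_of_lt hlt
          rw [e, map_zero] at this
          exact zero_ne_one this
        refine ⟨u * Units.mk0 _ h3, ?_, mul_mem huQ (hTQ (hone _ ?_))⟩
        · rw [Units.val_mul, Units.val_mk0, mul_add, mul_one, mul_inv_cancel₀ u.ne_zero, add_comm]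
        · rw [Units.val_mk0, add_sub_cancel_left]
          exact hlt
  intro hnx
  obtain ⟨x, hxQ, hx⟩ := hnx Q hord hTQ g
  obtain ⟨n, hn⟩ := (hQ x).1 hxQ
  exact hx n hn

end

/-- exceptional places in quadratic extensions -/
theorem t_STARNX : S_STARNX := by
  intro F E _ _ _ _ _ ζ hζ hE _ R hV hO hNX P hP hle g
  by_contra hcon
  push Not at hcon
  obtain ⟨hEV, hidx⟩ := setup hζ hO hP hle hcon
  have h2O : (R.comap (algebraMap F E)).valuation (2 : F) = 1 := by exact_mod_cast hO.pv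
  have hζE : IsPrimitiveRoot (algebraMap F E ζ) 2 :=
    hζ.map_of_injective (algebraMap F E).injective
  rw [idx_eq (F := F) (P := R) rfl two_ne_zero] at hidx
  rcases dich_val hE rfl h2O hEV with h3 | h3
  · obtain ⟨c, hc⟩ : ∃ c : Eˣ, c ∉ VP 2 R := by
      by_contra hcon
      push Not at hcon
      rw [(Subgroup.index_eq_one).2 ((Subgroup.eq_top_iff' _).2 hcon)] at hidx
      omega
    exact not_nx hζE hV (EV.up rfl hEV h3) hc
      (fun x => gen_of_index Nat.prime_two hidx hc x) hNX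
  · exact not_V1_of_sq hζE hV h3 hidx

end Pool.Agent.Helper90.V3
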